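import Pool.Agent.helper12.RS.CirU
import Pool.Agent.helper12.RS.Asm
import Pool.Agent.helper63.RG.MaxP
import Pool.Agent.helper72.EQR.Symm

set_option autoImplicit false

/-!
# The circle `‖om‖ = R`: conjugation symmetry and normalised coordinates
-/

namespace Pool.Agent.helper70.EQR

open Complex ComplexConjugate
open Pool.Agent.helper12.RS
open Pool.Agent.helper63.NF Pool.Agent.helper20.EQR Pool.Agent.helper72.EQR

variable {t : Tb} {e κ θ δ Y : ℝ} {n : ℕ} {T : ℂ}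

/-! ### conjugation -/

theorem omT_conj (κ : ℝ) (T : ℂ) : omT κ (conj T) = conj (omT κ T) := by
  unfold omT
  rw [map_div₀, map_sub, map_add, conj_ofReal]

theorem podom_conj (ht : t.IsReal) {y : ℂ} (h : podom t.pol (t.de e) y) :
    podom t.pol (t.de e) (conj y) := by
  intro p hp
  exact Pol.dom_conj (ht.pol p hp) (Tb.conj_de ht) (h p hp)

theorem NodeP_conj (ht : t.IsReal) (h : NodeP t e κ n T) : NodeP t e κ n (conj T) := by
  refine ⟨?_, ?_, ?_, ?_, ?_, ?_⟩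
  · have h1 := h.Q
    rw [add_re] at h1 ⊢
    rwa [conj_re]
  · have h1 : ((1 / e : ℝ) : ℂ) + t.c n * conj T = conj (((1 / e : ℝ) : ℂ) + t.c n * T) := by
      rw [map_add, map_mul, conj_ofReal, ht.c]
    rw [h1]
    exact (map_ne_zero _).2 h.den
  · rw [Tb.yT_conj]
    exact podom_conj ht h.pol
  · rw [Tb.rT_conj ht]
    exact (map_ne_zero _).2 h.r
  · rw [Tb.MT_conj ht]
    exact (map_ne_zero _).2 h.M
  · rw [Tb.lT_conj ht, one_exp_conj, conj_re]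
    exact h.E

theorem StepP_conj (ht : t.IsReal) (hn : NodeP t e κ n T) {x T' : ℂ}
    (h : StepP t e κ δ Y n T x T') : StepP t e κ δ Y n (conj T) (conj x) (conj T') := by
  have hLC : LC (t.lT e κ T) (t.rT e κ n T * x) := ⟨hn.E, h.F, slit_of_re h.g⟩
  refine ⟨?_, ?_, ?_, ?_, ?_, ?_, ?_⟩
  · rw [Tb.lT_conj ht, Tb.rT_conj ht, ← map_mul, one_exp_mul_conj, conj_re]
    exact h.F
  · rw [Tb.rT_conj ht, ← map_mul]
    have h1 : 1 - conj (t.rT e κ n T * x) = conj (1 - t.rT e κ n T * x) := by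
      rw [map_sub, map_one]
    rw [h1, conj_re]
    exact h.g
  · rw [Tb.yT_conj, Tb.lT_conj ht, Tb.rT_conj ht, ← map_mul, Sn_conj hLC, h.S, map_pow, map_add,
      conj_ofReal]
  · have h1 := h.re
    rw [add_re] at h1 ⊢
    rwa [conj_re]
  · have h1 : conj T' + (Real.sinh κ : ℂ) = conj (T' + (Real.sinh κ : ℂ)) := by
      rw [map_add, conj_ofReal]
    rw [h1]
    exact (map_ne_zero _).2 h.ne
  · have h1 : omT κ (conj T') - (kk κ : ℂ) * omT κ (conj T) =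
        conj (omT κ T' - (kk κ : ℂ) * omT κ T) := by
      rw [omT_conj, omT_conj, map_sub, map_mul, conj_ofReal]
    rw [h1, norm_conj]
    exact h.disp
  · have h1 : (conj T') ^ 2 - (Real.sinh κ : ℂ) ^ 2 = conj (T' ^ 2 - (Real.sinh κ : ℂ) ^ 2) := by
      rw [map_sub, map_pow, map_pow, conj_ofReal]
    rw [h1, norm_conj]
    exact h.cut

/-- conjugation of the facts of a middle node -/
theorem MidQ.conj (ht : t.IsReal) (h : MidQ t e κ θ δ Y n T) : MidQ t e κ θ δ Y n (conj T) := by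
  refine ⟨NodeP_conj ht h.nd, fun x hx => ?_⟩
  obtain ⟨T', h1, h2, h3⟩ := h.st (starRingEnd ℂ x) (by rwa [norm_conj])
  refine ⟨starRingEnd ℂ T', ?_, ?_, ?_⟩
  · have := StepP_conj ht h.nd h1
    rwa [conj_conj] at this
  · rw [Tb.lT_conj ht, one_exp_conj, conj_re]
    exact h2
  · intro x' hx'
    have h4 := h3 (starRingEnd ℂ x') (by rwa [norm_conj])
    have h5 : clo t e κ n (starRingEnd ℂ T) (starRingEnd ℂ T') x x' =
        starRingEnd ℂ (clo t e κ n T T' (starRingEnd ℂ x) (starRingEnd ℂ x')) := by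
      unfold clo
      have hl : log ((Real.cosh κ : ℂ) + starRingEnd ℂ T') =
          starRingEnd ℂ (log ((Real.cosh κ : ℂ) + T')) := by
        rw [← log_conj_slit (slit_of_re h1.re), map_add, conj_ofReal]
      rw [Tb.lT_conj ht, Tb.rT_conj ht, Tb.rT_conj ht, Tb.MT_conj ht, Tb.lT_conj ht,
        lc_conj h.nd.E, lc_conj h2, hl]
      simp only [map_sub, map_mul, map_div₀, map_one, map_add, ← exp_conj, conj_conj, map_neg,
        conj_ofReal]
    rw [h5, norm_conj]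
    exact h4

theorem re_of_om (hκ : 0 < κ) {T : ℂ} (h : ‖omT κ T‖ < 1) (h0 : T + (Real.sinh κ : ℂ) ≠ 0) :
    0 < T.re := by
  have hK : 0 < Real.sinh κ := Real.sinh_pos_iff.2 hκ
  have h0' : (Real.sinh κ : ℂ) + T ≠ 0 := by rwa [add_comm]
  unfold omT at h
  rw [norm_div, div_lt_one (norm_pos_iff.2 h0')] at h
  have h1 : normSq ((Real.sinh κ : ℂ) - T) < normSq ((Real.sinh κ : ℂ) + T) := by
    rw [normSq_eq_norm_sq, normSq_eq_norm_sq]
    exact pow_lt_pow_left₀ h (norm_nonneg _) two_ne_zero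
  rw [normSq_apply, normSq_apply] at h1
  simp only [sub_re, sub_im, add_re, add_im, ofReal_re, ofReal_im] at h1
  nlinarith

/-- conjugation of the facts of the last near node, in the disc where the next state has positive
real part -/
theorem LastP.conj {A x0 B1 : ℝ} (ht : t.IsReal) (hκ : 0 < κ) (hd : kk κ * ‖omT κ T‖ + δ < 1)
    (h : LastP t e κ θ δ Y A x0 B1 n T) : LastP t e κ θ δ Y A x0 B1 n (conj T) := by
  refine ⟨NodeP_conj ht h.nd, fun x hx => ?_⟩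
  obtain ⟨T', h1, h2⟩ := h.st (starRingEnd ℂ x) (by rwa [norm_conj])
  have hkk : 0 < kk κ := Real.exp_pos _
  have hT' : 0 < T'.re := by
    apply re_of_om hκ _ h1.ne
    have h3 : omT κ T' = (omT κ T' - (kk κ : ℂ) * omT κ T) + (kk κ : ℂ) * omT κ T := by ring
    rw [h3]
    refine lt_of_le_of_lt (norm_add_le _ _) ?_
    rw [norm_mul, norm_real, Real.norm_of_nonneg hkk.le]
    linarith [h1.disp]
  have hc := Real.one_le_cosh κ
  refine ⟨starRingEnd ℂ T', ?_, ?_⟩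
  · have := StepP_conj ht h.nd h1
    rwa [conj_conj] at this
  · intro Q' Q1 Q2 q2 q3 g1 g2 g3 g4 g5
    have hQ' : 1 ≤ Q'.re := by
      rw [g1, add_re, conj_re, ofReal_re]
      linarith
    have hinv : ∀ z : ℂ, 1 ≤ z.re → ‖z⁻¹‖ ≤ 1 := by
      intro z hz
      rw [norm_inv]
      exact inv_le_one_of_one_le₀ (hz.trans (re_le_norm z))
    have hre2 : (2 * (Real.cosh κ : ℂ)).re = 2 * Real.cosh κ := by
      rw [show (2 * (Real.cosh κ : ℂ)) = ((2 * Real.cosh κ : ℝ) : ℂ) by push_cast; ring, ofReal_re]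
    have hQ1 : 1 ≤ Q1.re := by
      rw [g2, sub_re, hre2]
      have := (re_le_norm (Q'⁻¹)).trans (hinv _ hQ')
      linarith
    have hQ2 : 1 ≤ Q2.re := by
      rw [g3, sub_re, hre2]
      have := (re_le_norm (Q1⁻¹)).trans (hinv _ hQ1)
      linarith
    have hc2 : starRingEnd ℂ (2 * (Real.cosh κ : ℂ)) = 2 * (Real.cosh κ : ℂ) := by
      rw [map_mul, conj_ofReal, show (starRingEnd ℂ (2 : ℂ)) = 2 from Complex.conj_ofNat 2]
    have k1 : starRingEnd ℂ Q' = (Real.cosh κ : ℂ) + T' := by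
      rw [g1, map_add, conj_ofReal, conj_conj]
    have k2 : starRingEnd ℂ Q1 = 2 * (Real.cosh κ : ℂ) - (starRingEnd ℂ Q')⁻¹ := by
      rw [g2, map_sub, map_inv₀, hc2]
    have k3 : starRingEnd ℂ Q2 = 2 * (Real.cosh κ : ℂ) - (starRingEnd ℂ Q1)⁻¹ := by
      rw [g3, map_sub, map_inv₀, hc2]
    have k4 : starRingEnd ℂ q2 = (starRingEnd ℂ Q1) ^ (-(e : ℂ)) := by
      rw [g4, pow_conj (slit_of_re (by linarith))]
    have k5 : starRingEnd ℂ q3 = (starRingEnd ℂ Q2) ^ (-(e : ℂ)) := by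
      rw [g5, pow_conj (slit_of_re (by linarith))]
    obtain ⟨m1, m2, m3⟩ := h2 _ _ _ _ _ k1 k2 k3 k4 k5
    have j1 : 1 + starRingEnd ℂ q3 = starRingEnd ℂ (1 + q3) := by rw [map_add, map_one]
    rw [j1] at m1 m2 m3
    rw [norm_conj, norm_conj] at m1
    refine ⟨m1, (map_ne_zero _).1 m2, ?_⟩
    intro f2 χ hf hχ
    have h4 := m3 (starRingEnd ℂ f2) (starRingEnd ℂ χ) (by
      have e1 : starRingEnd ℂ f2 - 1 / starRingEnd ℂ (1 + q3) =
          starRingEnd ℂ (f2 - 1 / (1 + q3)) := by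
        rw [map_sub, map_div₀, map_one]
      have e2 : (starRingEnd ℂ Q2 - (Real.cosh κ : ℂ)) ^ 2 - (Real.sinh κ : ℂ) ^ 2 =
          starRingEnd ℂ ((Q2 - (Real.cosh κ : ℂ)) ^ 2 - (Real.sinh κ : ℂ) ^ 2) := by
        rw [map_sub, map_pow, map_pow, map_sub, conj_ofReal, conj_ofReal]
      rw [e1, e2, norm_conj, norm_conj, norm_conj, norm_conj]
      exact hf) (by
      have e1 : (starRingEnd ℂ Q' - (Real.exp (-κ) : ℂ)) / starRingEnd ℂ Q' =
          starRingEnd ℂ ((Q' - (Real.exp (-κ) : ℂ)) / Q') := by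
        rw [map_div₀, map_sub, conj_ofReal]
      rw [e1, norm_conj, norm_conj]
      exact hχ)
    have hsQ : Q' ∈ slitPlane := slit_of_re (by linarith)
    have e3 : exp (CL (t.lT e κ T) - (e : ℂ) * log (starRingEnd ℂ Q')) =
        starRingEnd ℂ (exp (CL (t.lT e κ (starRingEnd ℂ T)) - (e : ℂ) * log Q')) := by
      rw [exp_sub, exp_sub, Tb.lT_conj ht, exp_CL_conj, log_conj_slit hsQ, map_div₀, conj_conj]
      congr 1
      rw [← exp_conj, map_mul, conj_ofReal]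
    rw [e3] at h4
    have e4 : starRingEnd ℂ x - t.MT e κ n T * (starRingEnd ℂ x - (1 - starRingEnd ℂ
        (exp (CL (t.lT e κ (starRingEnd ℂ T)) - (e : ℂ) * log Q')) *
        (1 - starRingEnd ℂ q2 * starRingEnd ℂ f2 * (1 - starRingEnd ℂ χ))) / t.rT e κ n T) =
        starRingEnd ℂ (x - t.MT e κ n (starRingEnd ℂ T) * (x - (1 -
        exp (CL (t.lT e κ (starRingEnd ℂ T)) - (e : ℂ) * log Q') *
        (1 - q2 * f2 * (1 - χ))) / t.rT e κ n (starRingEnd ℂ T))) := by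
      rw [Tb.MT_conj ht, Tb.rT_conj ht]
      simp only [map_sub, map_mul, map_div₀, map_one, conj_conj]
    rwa [e4, norm_conj] at h4

/-! ### the circle -/

theorem circ_eq {κ R : ℝ} {T : ℂ} (hom : ‖omT κ T‖ = R)
    (hTK : T + (Real.sinh κ : ℂ) ≠ 0) :
    (1 - R ^ 2) * (Real.sinh κ ^ 2 + (T.re ^ 2 + T.im ^ 2)) =
      2 * Real.sinh κ * T.re * (1 + R ^ 2) := by
  have h0' : (Real.sinh κ : ℂ) + T ≠ 0 := by rwa [add_comm]
  unfold omT at hom
  rw [norm_div, div_eq_iff (norm_ne_zero_iff.2 h0')] at hom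
  have h1 : normSq ((Real.sinh κ : ℂ) - T) = R ^ 2 * normSq ((Real.sinh κ : ℂ) + T) := by
    rw [normSq_eq_norm_sq, normSq_eq_norm_sq, hom]
    ring
  rw [normSq_apply, normSq_apply] at h1
  simp only [sub_re, sub_im, add_re, add_im, ofReal_re, ofReal_im] at h1
  linear_combination h1

/-- parameter of a point of the circle, upper half -/
theorem circ_eta {κ R : ℝ} (hκ : 0 < κ) (hR0 : 0 < R) (hR1 : R < 1) {T : ℂ} {a : ℝ} (ha : 0 < a)
    (hT : ‖T‖ ≤ a) (hom : ‖omT κ T‖ = R) (him : 0 ≤ T.im) (hTK : T + (Real.sinh κ : ℂ) ≠ 0)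
    (hρ : a * ((1 - R) / Real.sinh κ) ≤ 9 / 20 * (1 + R)) :
    0 < T.re ∧ ∃ η : ℝ, 0 ≤ η ∧ η ≤ 9 / 8 * a ∧
      T * ((1 + R : ℝ) + (η : ℂ) * I * (((1 - R) / Real.sinh κ : ℝ) : ℂ)) =
        ((Real.sinh κ * (1 - R) : ℝ) : ℂ) + (η : ℂ) * I * ((1 + R : ℝ) : ℂ) := by
  have hK : 0 < Real.sinh κ := Real.sinh_pos_iff.2 hκ
  have hE := circ_eq hom hTK
  obtain ⟨K, hKd⟩ : ∃ K : ℝ, K = Real.sinh κ := ⟨_, rfl⟩
  obtain ⟨ρ, hρd⟩ : ∃ ρ : ℝ, ρ = (1 - R) / Real.sinh κ := ⟨_, rfl⟩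
  rw [← hρd] at hρ ⊢
  have hKρ : K * ρ = 1 - R := by
    rw [hρd, hKd]
    field_simp
  rw [← hKd] at hE hK ⊢
  obtain ⟨x, y, rfl⟩ : ∃ x y : ℝ, T = ⟨x, y⟩ := ⟨T.re, T.im, rfl⟩
  simp only at hE him ⊢
  have hρ0 : 0 < ρ := by
    have : 0 < K * ρ := by rw [hKρ]; linarith
    exact pos_of_mul_pos_right this hK.le
  have hx : 0 < x := by
    have h1 : 0 < (1 - R ^ 2) * (K ^ 2 + (x ^ 2 + y ^ 2)) := by
      apply mul_pos
      · nlinarith
      · positivity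
    rw [hE] at h1
    have h2 : 0 < 2 * K * (1 + R ^ 2) := by positivity
    nlinarith
  have hn2 : x ^ 2 + y ^ 2 ≤ a ^ 2 := by
    have h1 : ‖(⟨x, y⟩ : ℂ)‖ ^ 2 ≤ a ^ 2 := pow_le_pow_left₀ (norm_nonneg _) hT 2
    rw [← normSq_eq_norm_sq, normSq_apply] at h1
    simp only at h1
    linarith
  have hxa : x ≤ a := by nlinarith
  have hxρ : a * (x * ρ) ≤ 9 / 20 * (1 + R) * x := by
    have := mul_le_mul_of_nonneg_left hρ hx.le
    nlinarith
  have hD : 0 < (1 + R) - x * ρ := by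
    have h1 : x * ρ ≤ a * ρ := mul_le_mul_of_nonneg_right hxa hρ0.le
    nlinarith
  obtain ⟨η, hη⟩ : ∃ η : ℝ, η = y * (1 + R) / ((1 + R) - x * ρ) := ⟨_, rfl⟩
  have hηD : η * ((1 + R) - x * ρ) = y * (1 + R) := by
    rw [hη, div_mul_cancel₀ _ hD.ne']
  have hη0 : 0 ≤ η := by
    rw [hη]
    exact div_nonneg (by positivity) hD.le
  refine ⟨hx, η, hη0, ?_, ?_⟩
  · have h1 : y ≤ 9 / 8 * a - 81 / 160 * x := by
      have hV : 0 ≤ 9 / 8 * a - 81 / 160 * x := by nlinarith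
      have h2 : y ^ 2 ≤ (9 / 8 * a - 81 / 160 * x) ^ 2 := by
        nlinarith [sq_nonneg (17 / 64 * a - 729 / 1280 * x), sq_nonneg x, sq_nonneg a]
      exact (pow_le_pow_iff_left₀ him hV two_ne_zero).1 h2
    have h3 : y * (1 + R) ≤ 9 / 8 * a * ((1 + R) - x * ρ) := by
      have h4 : y * (1 + R) ≤ (9 / 8 * a - 81 / 160 * x) * (1 + R) :=
        mul_le_mul_of_nonneg_right h1 (by linarith)
      nlinarith
    rw [← hηD] at h3
    exact le_of_mul_le_mul_right h3 hD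
  · apply Complex.ext
    · simp only [mul_re, add_re, mul_im, add_im, ofReal_re, ofReal_im, I_re, I_im]
      have h5 : K * (x * (1 + R) - y * (η * ρ) - K * (1 - R)) * ((1 + R) - x * ρ) = 0 := by
        have h6 : K * (x * (1 + R) - y * (η * ρ) - K * (1 - R)) * ((1 + R) - x * ρ) =
            K * x * (1 + R) * ((1 + R) - x * ρ) - y * (K * ρ) * (η * ((1 + R) - x * ρ)) -
              K * (K * (1 - R)) * (1 + R) + K * (1 - R) * x * (K * ρ) := by ring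
        rw [h6, hηD, hKρ]
        linear_combination (-1) * hE - x * x * (1 + R) * hKρ
      have h7 : x * (1 + R) - y * (η * ρ) - K * (1 - R) = 0 := by
        rcases mul_eq_zero.1 h5 with h8 | h8
        · rcases mul_eq_zero.1 h8 with h9 | h9
          · exact absurd h9 hK.ne'
          · exact h9
        · exact absurd h8 hD.ne'
      linear_combination h7
    · simp only [mul_re, add_re, mul_im, add_im, ofReal_re, ofReal_im, I_re, I_im]
      linear_combination (-1) * hηD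

/-- normalised form of the point of the circle -/
theorem cU_eq (he : 0 < e) {s B : ℝ} {b : PtB} (hb : BR e κ s B b) {R η et : ℝ} (hR0 : 0 < R)
    (hR1 : R < 1) (hη : η = s / e * et) {X : ℂ} (hX : (κ : ℂ) * X = ((1 - R : ℝ) : ℂ)) {T : ℂ}
    (h : T * ((1 + R : ℝ) + (η : ℂ) * I * (((1 - R) / Real.sinh κ : ℝ) : ℂ)) =
        ((Real.sinh κ * (1 - R) : ℝ) : ℂ) + (η : ℂ) * I * ((1 + R : ℝ) : ℂ)) :
    T = b.se * cU b et X := by
  have hκ := hb.kap_pos he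
  have hK : 0 < Real.sinh κ := Real.sinh_pos_iff.2 hκ
  have hκ0 : (κ : ℂ) ≠ 0 := by exact_mod_cast hκ.ne'
  have hK0 : (Real.sinh κ : ℂ) ≠ 0 := by exact_mod_cast hK.ne'
  have hkh := hb.kh_eq
  have h2z : (2 : ℂ) * b.z = (κ : ℂ) := hb.two_z
  have hz : b.z = b.se * b.B := hb.z_rel
  have hse := hb.se_eq
  have hkh0 : b.kh ≠ 0 := by
    intro h0
    rw [h0, mul_zero] at hkh
    exact hK0 hkh.symm
  -- X and kh are real
  have hX1 : X = (((1 - R) / κ : ℝ) : ℂ) := by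
    apply mul_left_cancel₀ hκ0
    rw [hX]
    push_cast
    field_simp
  have hkh1 : b.kh = ((Real.sinh κ / κ : ℝ) : ℂ) := by
    apply mul_left_cancel₀ hκ0
    rw [hkh]
    push_cast
    field_simp
  have hρ : (((1 - R) / Real.sinh κ : ℝ) : ℂ) * b.kh = X := by
    rw [hX1, hkh1, ← ofReal_mul]
    congr 1
    field_simp
  have hseet : b.se * (et : ℂ) = (η : ℂ) := by
    rw [hse, hη]
    push_cast
    ring
  have hR2 : (2 : ℂ) - (2 * b.z) * X = ((1 + R : ℝ) : ℂ) := by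
    rw [h2z, hX]
    push_cast
    ring
  have hD : cDn b et X = ((1 + R : ℝ) + (η : ℂ) * I * (((1 - R) / Real.sinh κ : ℝ) : ℂ)) * b.kh := by
    unfold cDn
    rw [hR2, hseet]
    linear_combination (-(η : ℂ) * I) * hρ
  have hN : b.se * (b.kh * cN b et X) =
      (((Real.sinh κ * (1 - R) : ℝ) : ℂ) + (η : ℂ) * I * ((1 + R : ℝ) : ℂ)) * b.kh := by
    unfold cN
    rw [hR2]
    have h4 : (4 : ℂ) * (b.se * b.B) ^ 2 = (κ : ℂ) ^ 2 := by
      rw [← hz, ← h2z]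
      ring
    have h5 : (Real.sinh κ : ℂ) = κ * b.kh := hkh.symm
    have h6 : ((Real.sinh κ * (1 - R) : ℝ) : ℂ) = κ * b.kh * (κ * X) := by
      rw [hX, ← h5]
      push_cast
      ring
    rw [h6]
    linear_combination b.kh ^ 2 * X * h4 + b.kh * I * ((1 + R : ℝ) : ℂ) * hseet
  have hD0 : ((1 + R : ℝ) + (η : ℂ) * I * (((1 - R) / Real.sinh κ : ℝ) : ℂ)) ≠ 0 := by
    intro h0
    have := congrArg re h0
    simp only [mul_re, add_re, mul_im, ofReal_re, ofReal_im, I_re, I_im, zero_re] at this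
    nlinarith
  have hDn0 : cDn b et X ≠ 0 := by
    rw [hD]
    exact mul_ne_zero hD0 hkh0
  unfold cU
  apply mul_right_cancel₀ hDn0
  have h7 : b.se * ((b.kh * cN b et X) * (cDn b et X)⁻¹) * cDn b et X =
      b.se * (b.kh * cN b et X) := by
    field_simp
  rw [h7, hN, hD, ← h]
  ring

/-- **Points of the circle in the charts**, upper half. -/
theorem circ_cover_up (he : 0 < e) (hκ : 0 < κ) {R : ℝ} (hR0 : 0 < R) (hR1 : R < 1) {T : ℂ}
    (hT : ‖T‖ ≤ 1 / 8 / e) (hom : ‖omT κ T‖ = R) (him : 0 ≤ T.im) (hTK : T + (Real.sinh κ : ℂ) ≠ 0)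
    (hρ : 1 / 8 / e * ((1 - R) / Real.sinh κ) ≤ 9 / 20 * (1 + R)) {C : ℂ → Prop}
    (hA : ∀ s m : ℝ, 0 < s → s ≤ 9 / 64 → 0 < m → m ≤ 1 → e * κ = s * m → ∀ X : ℂ,
      (κ : ℂ) * X = ((1 - R : ℝ) : ℂ) → ∀ U, U = cU (bA ((1 / e : ℝ) : ℂ) s m) 1 X →
      0 < ((bA ((1 / e : ℝ) : ℂ) s m).se * U).re → C ((bA ((1 / e : ℝ) : ℂ) s m).se * U))
    (hB : ∀ s m : ℝ, 0 < s → s = e * κ / 2 → 0 ≤ m → m ≤ 1 → 2 * s * m ≤ 9 / 64 → ∀ X : ℂ,
      (κ : ℂ) * X = ((1 - R : ℝ) : ℂ) → ∀ U, U = cU (bB ((1 / e : ℝ) : ℂ) s) (2 * m) X →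
      0 < ((bB ((1 / e : ℝ) : ℂ) s).se * U).re → C ((bB ((1 / e : ℝ) : ℂ) s).se * U)) :
    C T := by
  obtain ⟨hre, η, hη0, hη1, hη⟩ := circ_eta hκ hR0 hR1 (a := 1 / 8 / e) (by positivity) hT hom him
    hTK hρ
  have hκ0 : (κ : ℂ) ≠ 0 := by exact_mod_cast hκ.ne'
  have hX : (κ : ℂ) * (((1 - R) / κ : ℝ) : ℂ) = ((1 - R : ℝ) : ℂ) := by
    push_cast
    field_simp
  have heη : e * η ≤ 9 / 64 := by
    calc e * η ≤ e * (9 / 8 * (1 / 8 / e)) := by gcongr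
      _ = 9 / 64 := by field_simp; norm_num
  by_cases hc : κ ≤ η
  · have hηp : 0 < η := hκ.trans_le hc
    have hb : BR e κ (e * η) (1 / 2 * (κ / η)) (bA ((1 / e : ℝ) : ℂ) ((e * η : ℝ) : ℂ)
        ((κ / η : ℝ) : ℂ)) := by
      refine ⟨rfl, rfl, ?_, by positivity, by positivity, ?_⟩
      · show (1 / 2 : ℂ) * ((κ / η : ℝ) : ℂ) = _
        push_cast
        ring
      · field_simp
    have hTU := cU_eq he hb hR0 hR1 (η := η) (et := 1) (by field_simp) hX hη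
    have hTU' : T = (bA ((1 / e : ℝ) : ℂ) ((e * η : ℝ) : ℂ) ((κ / η : ℝ) : ℂ)).se *
        cU (bA ((1 / e : ℝ) : ℂ) ((e * η : ℝ) : ℂ) ((κ / η : ℝ) : ℂ)) 1
          (((1 - R) / κ : ℝ) : ℂ) := by
      rw [ofReal_one] at hTU
      exact hTU
    rw [hTU'] at hre ⊢
    exact hA (e * η) (κ / η) (by positivity) heη (by positivity) ((div_le_one hηp).2 hc)
      (by field_simp) _ hX _ rfl hre
  · push Not at hc
    have hb : BR e κ (e * κ / 2) 1 (bB ((1 / e : ℝ) : ℂ) ((e * κ / 2 : ℝ) : ℂ)) := by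
      refine ⟨rfl, rfl, ?_, by positivity, one_pos, ?_⟩
      · show (1 : ℂ) = _
        simp
      · field_simp
    have hTU := cU_eq he hb hR0 hR1 (η := η) (et := 2 * (η / κ)) (by field_simp) hX hη
    have hTU' : T = (bB ((1 / e : ℝ) : ℂ) ((e * κ / 2 : ℝ) : ℂ)).se *
        cU (bB ((1 / e : ℝ) : ℂ) ((e * κ / 2 : ℝ) : ℂ)) (2 * ((η / κ : ℝ) : ℂ))
          (((1 - R) / κ : ℝ) : ℂ) := by
      rw [show (2 : ℂ) * ((η / κ : ℝ) : ℂ) = ((2 * (η / κ) : ℝ) : ℂ) by push_cast; ring]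
      exact hTU
    rw [hTU'] at hre ⊢
    refine hB (e * κ / 2) (η / κ) (by positivity) rfl (by positivity)
      ((div_le_one hκ).2 hc.le) ?_ _ hX _ rfl hre
    have : 2 * (e * κ / 2) * (η / κ) = e * η := by field_simp
    rw [this]
    exact heη

/-- **Points of the circle in the charts.** -/
theorem circ_cover (he : 0 < e) (hκ : 0 < κ) {R : ℝ} (hR0 : 0 < R) (hR1 : R < 1) {T : ℂ}
    (hT : ‖T‖ ≤ 1 / 8 / e) (hom : ‖omT κ T‖ = R) (hTK : T + (Real.sinh κ : ℂ) ≠ 0)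
    (hρ : 1 / 8 / e * ((1 - R) / Real.sinh κ) ≤ 9 / 20 * (1 + R)) {C : ℂ → Prop}
    (hc : ∀ z, C z → C (conj z))
    (hA : ∀ s m : ℝ, 0 < s → s ≤ 9 / 64 → 0 < m → m ≤ 1 → e * κ = s * m → ∀ X : ℂ,
      (κ : ℂ) * X = ((1 - R : ℝ) : ℂ) → ∀ U, U = cU (bA ((1 / e : ℝ) : ℂ) s m) 1 X →
      0 < ((bA ((1 / e : ℝ) : ℂ) s m).se * U).re → C ((bA ((1 / e : ℝ) : ℂ) s m).se * U))
    (hB : ∀ s m : ℝ, 0 < s → s = e * κ / 2 → 0 ≤ m → m ≤ 1 → 2 * s * m ≤ 9 / 64 → ∀ X : ℂ,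
      (κ : ℂ) * X = ((1 - R : ℝ) : ℂ) → ∀ U, U = cU (bB ((1 / e : ℝ) : ℂ) s) (2 * m) X →
      0 < ((bB ((1 / e : ℝ) : ℂ) s).se * U).re → C ((bB ((1 / e : ℝ) : ℂ) s).se * U)) :
    C T := by
  by_cases him : 0 ≤ T.im
  · exact circ_cover_up he hκ hR0 hR1 hT hom him hTK hρ hA hB
  · push Not at him
    have h1 : C (conj T) := by
      refine circ_cover_up he hκ hR0 hR1 ?_ ?_ ?_ ?_ hρ hA hB
      · rwa [norm_conj]
      · rwa [omT_conj, norm_conj]
      · rw [conj_im]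
        linarith
      · have h2 : conj T + (Real.sinh κ : ℂ) = conj (T + (Real.sinh κ : ℂ)) := by
          rw [map_add, conj_ofReal]
        rw [h2]
        exact (map_ne_zero _).2 hTK
    have h3 := hc _ h1
    rwa [conj_conj] at h3

end Pool.Agent.helper70.EQR
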